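import Pool.Agent.H42.XS.Targets
import Pool.Agent.H19.SYM.SUPP

/-!
Circuits symmetric under exchanges of literals (MP_c62aed_lc), row RED: the equations in small
relations are dropped.
-/

namespace Pool.Agent.H96.XS

open Finset Pool.Agent.H60.SYM Pool.Agent.H42.XS Pool.Agent.H19.SYM

theorem perp_zero {n : ℕ} (U : Submodule (ZMod 2) (Fin n → ZMod 2)) : perp U 0 := by
  intro f _
  simp [pair]

theorem perp_add {n : ℕ} (U : Submodule (ZMod 2) (Fin n → ZMod 2)) {z w : Fin n → ZMod 2}
    (hz : perp U z) (hw : perp U w) : perp U (z + w) := by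
  intro f hf
  have h1 := hz f hf
  have h2 := hw f hf
  simp only [pair, Pi.add_apply, add_mul, sum_add_distrib] at h1 h2 ⊢
  rw [h1, h2, add_zero]

theorem comb_zero {M n d : ℕ} (e : Fin M → Fin (d + 1) → Fin n) : comb e 0 = 0 := by
  funext v
  simp [comb]

/-- the equations of small relations -/
theorem suppU {n d M θ : ℕ} (e : Fin M → Fin (d + 1) → Fin n)
    (U : Submodule (ZMod 2) (Fin n → ZMod 2))
    (h : ∀ y : Fin M → ZMod 2, θ < wt y → wt y ≤ 2 * θ → ¬ perp U (comb e y)) :
    ∃ J : Finset (Fin M), J.card ≤ 2 * θ ∧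
      ∀ y : Fin M → ZMod 2, wt y ≤ θ → perp U (comb e y) → ∀ i ∉ J, y i = 0 := by
  classical
  set Y : Finset (Fin M → ZMod 2) := univ.filter fun y => wt y ≤ θ ∧ perp U (comb e y) with hY
  have hadd : ∀ y ∈ Y, ∀ y' ∈ Y, y + y' ∈ Y := by
    intro y hy y' hy'
    simp only [hY, mem_filter, mem_univ, true_and] at hy hy' ⊢
    have h1 : perp U (comb e (y + y')) := by
      rw [comb_add]
      exact perp_add U hy.2 hy'.2
    have h2 : wt (y + y') ≤ 2 * θ := by
      have := wt_add_le y y'
      omega
    refine ⟨?_, h1⟩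
    by_contra h3
    exact h _ (not_le.mp h3) h2 h1
  have h0 : (0 : Fin M → ZMod 2) ∈ Y := by
    simp only [hY, mem_filter, mem_univ, true_and]
    refine ⟨by simp [wt], ?_⟩
    rw [comb_zero]
    exact perp_zero U
  set J : Finset (Fin M) := univ.filter fun i => ∃ y ∈ Y, y i ≠ 0 with hJ
  refine ⟨J, ?_, ?_⟩
  · have hhalf : ∀ i ∈ J, Y.card ≤ 2 * (Y.filter fun y => y i ≠ 0).card := by
      intro i hi
      obtain ⟨y0, hy0, hi0⟩ := (mem_filter.mp hi).2
      have h1 : (Y.filter fun y => ¬ (y i ≠ 0)).card ≤ (Y.filter fun y => y i ≠ 0).card := by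
        refine card_le_card_of_injOn (fun y => y + y0) ?_ ?_
        · intro y hy
          simp only [coe_filter, Set.mem_ofPred_eq] at hy ⊢
          rw [not_not] at hy
          exact ⟨hadd y hy.1 y0 hy0, zmod2_add hy.2 hi0⟩
        · intro y _ y' _ hyy
          exact add_right_cancel hyy
      have h2 := card_filter_add_card_filter_not (s := Y) (fun y => y i ≠ 0)
      omega
    have h1 : J.card * Y.card ≤ 2 * ∑ y ∈ Y, wt y := by
      have e1 : ∑ y ∈ Y, wt y = ∑ i : Fin M, (Y.filter fun y => y i ≠ 0).card := by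
        simp only [wt, card_filter]
        rw [sum_comm]
      rw [e1]
      calc J.card * Y.card = ∑ i ∈ J, Y.card := by rw [sum_const, smul_eq_mul]
        _ ≤ ∑ i ∈ J, 2 * (Y.filter fun y => y i ≠ 0).card := sum_le_sum hhalf
        _ ≤ ∑ i : Fin M, 2 * (Y.filter fun y => y i ≠ 0).card :=
            sum_le_sum_of_subset (subset_univ _)
        _ = 2 * ∑ i : Fin M, (Y.filter fun y => y i ≠ 0).card := by rw [mul_sum]
    have h2 : ∑ y ∈ Y, wt y ≤ Y.card * θ := by
      refine (sum_le_card_nsmul _ _ θ (fun y hy => ?_)).trans (by rw [smul_eq_mul])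
      simp only [hY, mem_filter] at hy
      exact hy.2.1
    have hpos : 0 < Y.card := card_pos.mpr ⟨0, h0⟩
    have h3 : J.card * Y.card ≤ (2 * θ) * Y.card := by nlinarith
    exact Nat.le_of_mul_le_mul_right h3 hpos
  · intro y hy hc i hi
    by_contra hne
    apply hi
    simp only [hJ, mem_filter, mem_univ, true_and]
    exact ⟨y, by simp only [hY, mem_filter, mem_univ, true_and]; exact ⟨hy, hc⟩, hne⟩

/-- `comb` of a restricted system -/
theorem comb_extend {M N n d : ℕ} (e : Fin M → Fin (d + 1) → Fin n) (h : Fin N → Fin M)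
    (hh : Function.Injective h) (y : Fin N → ZMod 2) :
    comb e (Function.extend h y 0) = comb (fun i => e (h i)) y := by
  funext v
  simp only [comb]
  symm
  refine Fintype.sum_of_injective h hh _ _ ?_ ?_
  · intro j hj
    have h1 : Function.extend h y 0 j = 0 := by
      rw [Function.extend_apply' _ _ _ (fun hc => hj hc)]
      rfl
    simp [h1]
  · intro i
    rw [hh.extend_apply]

theorem wt_extend {M N : ℕ} (h : Fin N → Fin M)
    (hh : Function.Injective h) (y : Fin N → ZMod 2) :
    wt (Function.extend h y 0) = wt y := by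
  classical
  have e1 : (univ.filter fun j => Function.extend h y 0 j ≠ 0) =
      (univ.filter fun i => y i ≠ 0).map ⟨h, hh⟩ := by
    ext j
    simp only [mem_filter, mem_univ, true_and, mem_map, Function.Embedding.coeFn_mk]
    constructor
    · intro hj
      by_cases hr : ∃ i, h i = j
      · obtain ⟨i, rfl⟩ := hr
        rw [hh.extend_apply] at hj
        exact ⟨i, hj, rfl⟩
      · exfalso
        apply hj
        rw [Function.extend_apply' _ _ _ hr]
        rfl
    · rintro ⟨i, hi, rfl⟩
      rw [hh.extend_apply]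
      exact hi
  unfold wt
  rw [e1, card_map]

/-- `comb` of a single equation is the indicator of its variables -/
theorem comb_single {M n d : ℕ} (e : Fin M → Fin (d + 1) → Fin n) (i : Fin M)
    (hi : Function.Injective (e i)) (v : Fin n) :
    comb e (Pi.single i 1) v = if v ∈ univ.image (e i) then 1 else 0 := by
  classical
  simp only [comb]
  rw [Fintype.sum_eq_single i]
  · simp only [Pi.single_eq_same]
    by_cases hv : v ∈ univ.image (e i)
    · rw [if_pos hv]
      obtain ⟨p, _, hp⟩ := mem_image.mp hv
      rw [Fintype.sum_eq_single p]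
      · rw [if_pos hp]
      · intro q hq
        rw [if_neg]
        intro h
        exact hq (hi (h.trans hp.symm))
    · rw [if_neg hv]
      refine sum_eq_zero fun p _ => ?_
      rw [if_neg]
      intro h
      exact hv (mem_image.mpr ⟨p, mem_univ _, h⟩)
  · intro j hj
    simp [Pi.single_eq_of_ne hj]

theorem pf_RED : T_RED := by
  classical
  intro n d K θ e B U h1 hθ hinj hB hav
  obtain ⟨J, hJ, hJ2⟩ := suppU e U (θ := θ) (fun y ha hb hc => hav y ha hb (hB _ hc))
  have hcard : K * n ≤ Jᶜ.card := by
    have h2 : (K + 1) * n = K * n + n := by ring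
    rw [card_compl, Fintype.card_fin]
    omega
  set h : Fin (K * n) → Fin ((K + 1) * n) := fun i => Jᶜ.orderEmbOfCardLe hcard i with hdef
  have hh : Function.Injective h := (Jᶜ.orderEmbOfCardLe hcard).injective
  have hmem : ∀ i, h i ∉ J := fun i =>
    mem_compl.mp (orderEmbOfCardLe_mem Jᶜ hcard i)
  have hne : ∀ y : Fin (K * n) → ZMod 2, y ≠ 0 → wt y ≤ 2 * θ →
      ¬ perp U (comb (fun i => e (h i)) y) := by
    intro y hy hw hp
    rw [← comb_extend e h hh] at hp
    rw [← wt_extend h hh] at hw
    rcases le_or_gt (wt (Function.extend h y 0)) θ with hle | hlt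
    · apply hy
      funext i
      have h3 := hJ2 _ hle hp (h i) (hmem i)
      rw [hh.extend_apply] at h3
      exact h3
    · exact hav _ hlt hw (hB _ hp)
  refine ⟨fun i => e (h i), ⟨fun i => hinj _, ?_⟩, hne, ?_⟩
  · intro i j hij
    by_contra hne'
    have hpair : comb (fun i => e (h i)) (Pi.single i 1 + Pi.single j 1) = 0 := by
      rw [comb_add]
      funext v
      rw [Pi.add_apply, comb_single _ i (hinj _), comb_single _ j (hinj _), hij]
      split_ifs
      · have h10 : (1 : ZMod 2) + 1 = 0 := by decide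
        exact h10
      · simp
    refine hne (Pi.single i 1 + Pi.single j 1) ?_ ?_ ?_
    · intro hc
      have h4 := congrFun hc i
      rw [Pi.add_apply, Pi.single_eq_same, Pi.single_eq_of_ne hne'] at h4
      simp at h4
    · have h5 : ∀ l : Fin (K * n), wt (Pi.single l (1 : ZMod 2)) ≤ 1 := by
        intro l
        unfold wt
        have h6 : (univ.filter fun q => (Pi.single l (1 : ZMod 2) : Fin (K * n) → ZMod 2) q ≠ 0) ⊆
            {l} := by
          intro q hq
          rw [mem_filter] at hq
          rw [mem_singleton]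
          by_contra hql
          exact hq.2 (Pi.single_eq_of_ne hql _)
        exact (card_le_card h6).trans (by rw [card_singleton])
      have h7 := wt_add_le (Pi.single i (1 : ZMod 2)) (Pi.single j (1 : ZMod 2))
      have h8 := h5 i
      have h9 := h5 j
      omega
    · rw [hpair]
      exact perp_zero U
  · intro y hlt hle
    rw [← wt_extend h hh] at hlt hle
    rw [← comb_extend e h hh]
    exact hav _ hlt hle

end Pool.Agent.H96.XS
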